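import Mathlib

/-!
# An orbit other than that of `∞` with two convergents per period

For `k = 46`, `d = 156/23` (so `R = 4 d ^ 2 / (k - d ^ 2) = -48672`) and `x₀ = 7` we have
`f(7) = 2150/317`. The numbers `7 = p_2/q_2` and `2150/317 = p_8/q_8` are convergents of `√46`, whose
period length is `12`, and `7` is not in the orbit of `∞`.
-/

set_option autoImplicit false

namespace Pool.Agent.Results.MP_f17d28_nt.TwoPerPeriod

open OnePoint

/-- complete quotients of the simple continued fraction of `x` -/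
noncomputable def quot (x : ℝ) : ℕ → ℝ
  | 0 => x
  | n + 1 => 1 / Int.fract (quot x n)

/-- partial quotients `c_0, c_1, ...` of the simple continued fraction of `x` -/
noncomputable def c (x : ℝ) (n : ℕ) : ℤ := ⌊quot x n⌋

/-- numerators of the convergents, `p_j / q_j = [c_0; c_1, ..., c_{j-1}]` for `j ≥ 1` -/
noncomputable def p (x : ℝ) : ℕ → ℤ
  | 0 => 1
  | 1 => c x 0
  | n + 2 => c x (n + 1) * p x (n + 1) + p x n

/-- denominators of the convergents -/
noncomputable def q (x : ℝ) : ℕ → ℤ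
  | 0 => 0
  | 1 => 1
  | n + 2 => c x (n + 1) * q x (n + 1) + q x n

/-- `L` is the minimal period length of the continued fraction of `√k`: the least `L ≥ 1` such that
`c_{n+L} = c_n` for all `n ≥ 1`. -/
def IsPeriodLength (k L : ℕ) : Prop :=
  IsLeast {l : ℕ | 1 ≤ l ∧ ∀ n : ℕ, 1 ≤ n → c (Real.sqrt k) (n + l) = c (Real.sqrt k) n} L

/-- the map `f(x) = (d x + k) / (x + d)` on `ℚ ∪ {∞}`, with `f(∞) = d`, `f(-d) = ∞` -/
def mob (k d : ℚ) : OnePoint ℚ → OnePoint ℚ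
  | Option.none => ((d : ℚ) : OnePoint ℚ)
  | Option.some x => if x + d = 0 then ∞ else (((d * x + k) / (x + d) : ℚ) : OnePoint ℚ)

theorem mob_infty (k d : ℚ) : mob k d ∞ = ((d : ℚ) : OnePoint ℚ) := rfl

theorem mob_coe (k d x : ℚ) : mob k d (x : OnePoint ℚ) =
    if x + d = 0 then ∞ else (((d * x + k) / (x + d) : ℚ) : OnePoint ℚ) := rfl

theorem mob_inv (k d : ℚ) (h : d ^ 2 ≠ k) (x : OnePoint ℚ) : mob k (-d) (mob k d x) = x := by
  have h' : k - d ^ 2 ≠ 0 := fun h1 => h (by linarith)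
  induction x using OnePoint.rec with
  | infty => rw [mob_infty, mob_coe, if_pos (by ring)]
  | coe x =>
    rw [mob_coe]
    split_ifs with h1
    · rw [mob_infty]
      congr 1
      linarith
    · rw [mob_coe]
      have e1 : (d * x + k) / (x + d) + -d = (k - d ^ 2) / (x + d) := by
        field_simp; ring
      rw [e1, if_neg (div_ne_zero h' h1)]
      congr 1
      rw [div_eq_iff (div_ne_zero h' h1)]
      field_simp
      ring

/-- `f` as a bijection of `ℚ ∪ {∞}` (for `d ^ 2 ≠ k`) -/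
def f (k d : ℚ) (h : d ^ 2 ≠ k) : Equiv.Perm (OnePoint ℚ) where
  toFun := mob k d
  invFun := mob k (-d)
  left_inv := mob_inv k d h
  right_inv := by
    intro x
    have := mob_inv k (-d) (by rwa [neg_sq]) x
    rwa [neg_neg] at this

/-! ### The continued fraction of `√46` -/

theorem s_bounds : (6.78 : ℝ) < Real.sqrt 46 ∧ Real.sqrt 46 < 6.79 := by
  constructor
  · rw [Real.lt_sqrt (by norm_num)]; norm_num
  · rw [Real.sqrt_lt' (by norm_num)]; norm_num

theorem step (P Q a P' Q' : ℤ) (hQ : 0 < Q) (hQ' : 0 < Q') (h1 : P' = a * Q - P)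
    (h2 : Q * Q' = 46 - P' ^ 2) (h3 : (a : ℝ) * Q ≤ P + 6.78) (h4 : (P : ℝ) + 6.79 ≤ (a + 1) * Q) :
    ⌊((P : ℝ) + Real.sqrt 46) / Q⌋ = a ∧
      1 / Int.fract (((P : ℝ) + Real.sqrt 46) / Q) = ((P' : ℝ) + Real.sqrt 46) / Q' := by
  obtain ⟨b1, b2⟩ := s_bounds
  have hQR : (0 : ℝ) < Q := by exact_mod_cast hQ
  have hQR' : (0 : ℝ) < Q' := by exact_mod_cast hQ'
  have hfl : ⌊((P : ℝ) + Real.sqrt 46) / Q⌋ = a := by
    rw [Int.floor_eq_iff]
    constructor
    · rw [le_div_iff₀ hQR]; linarith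
    · rw [div_lt_iff₀ hQR]; linarith
  refine ⟨hfl, ?_⟩
  have hs : Real.sqrt 46 ^ 2 = 46 := Real.sq_sqrt (by norm_num)
  have h1R : (P' : ℝ) = a * Q - P := by exact_mod_cast h1
  have h2R : (Q : ℝ) * Q' = 46 - P' ^ 2 := by exact_mod_cast h2
  rw [Int.fract, hfl]
  have e1 : ((P : ℝ) + Real.sqrt 46) / Q - a = (Real.sqrt 46 - P') / Q := by
    rw [h1R]; field_simp; ring
  have hne : Real.sqrt 46 - P' ≠ 0 := by
    intro h
    have : Real.sqrt 46 = P' := by linarith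
    rw [this] at hs
    rw [hs] at h2R
    have : (Q : ℝ) * Q' > 0 := mul_pos hQR hQR'
    linarith
  rw [e1, one_div_div, div_eq_div_iff hne hQR'.ne']
  nlinarith

/-- the complete quotients -/
theorem quots :
    (∀ (n : ℕ) (P Q : ℤ), quot (Real.sqrt 46) n = ((P : ℝ) + Real.sqrt 46) / Q →
      ∀ (a P' Q' : ℤ), 0 < Q → 0 < Q' → P' = a * Q - P → Q * Q' = 46 - P' ^ 2 →
      (a : ℝ) * Q ≤ P + 6.78 → (P : ℝ) + 6.79 ≤ (a + 1) * Q →
      c (Real.sqrt 46) n = a ∧ quot (Real.sqrt 46) (n + 1) = ((P' : ℝ) + Real.sqrt 46) / Q') := by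
  intro n P Q h a P' Q' hQ hQ' h1 h2 h3 h4
  have := step P Q a P' Q' hQ hQ' h1 h2 h3 h4
  refine ⟨?_, ?_⟩
  · rw [c, h]; exact this.1
  · rw [quot, h]; exact this.2

theorem base0 : quot (Real.sqrt 46) 0 = (((0 : ℤ) : ℝ) + Real.sqrt 46) / ((1 : ℤ) : ℝ) := by
  simp [quot]

/-- one period, starting from `(6 + √46) / 10` -/
theorem period (n : ℕ) (h : quot (Real.sqrt 46) n = (((6 : ℤ) : ℝ) + Real.sqrt 46) / ((10 : ℤ) : ℝ)) :
    c (Real.sqrt 46) n = 1 ∧ c (Real.sqrt 46) (n + 1) = 3 ∧ c (Real.sqrt 46) (n + 2) = 1 ∧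
    c (Real.sqrt 46) (n + 3) = 1 ∧ c (Real.sqrt 46) (n + 4) = 2 ∧ c (Real.sqrt 46) (n + 5) = 6 ∧
    c (Real.sqrt 46) (n + 6) = 2 ∧ c (Real.sqrt 46) (n + 7) = 1 ∧ c (Real.sqrt 46) (n + 8) = 1 ∧
    c (Real.sqrt 46) (n + 9) = 3 ∧ c (Real.sqrt 46) (n + 10) = 1 ∧
    c (Real.sqrt 46) (n + 11) = 12 ∧
    quot (Real.sqrt 46) (n + 12) = (((6 : ℤ) : ℝ) + Real.sqrt 46) / ((10 : ℤ) : ℝ) := by
  obtain ⟨c1, h⟩ := quots _ 6 10 h 1 4 3 (by norm_num) (by norm_num) (by norm_num) (by norm_num)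
    (by norm_num) (by norm_num)
  obtain ⟨c2, h⟩ := quots _ 4 3 h 3 5 7 (by norm_num) (by norm_num) (by norm_num) (by norm_num)
    (by norm_num) (by norm_num)
  obtain ⟨c3, h⟩ := quots _ 5 7 h 1 2 6 (by norm_num) (by norm_num) (by norm_num) (by norm_num)
    (by norm_num) (by norm_num)
  obtain ⟨c4, h⟩ := quots _ 2 6 h 1 4 5 (by norm_num) (by norm_num) (by norm_num) (by norm_num)
    (by norm_num) (by norm_num)
  obtain ⟨c5, h⟩ := quots _ 4 5 h 2 6 2 (by norm_num) (by norm_num) (by norm_num) (by norm_num)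
    (by norm_num) (by norm_num)
  obtain ⟨c6, h⟩ := quots _ 6 2 h 6 6 5 (by norm_num) (by norm_num) (by norm_num) (by norm_num)
    (by norm_num) (by norm_num)
  obtain ⟨c7, h⟩ := quots _ 6 5 h 2 4 6 (by norm_num) (by norm_num) (by norm_num) (by norm_num)
    (by norm_num) (by norm_num)
  obtain ⟨c8, h⟩ := quots _ 4 6 h 1 2 7 (by norm_num) (by norm_num) (by norm_num) (by norm_num)
    (by norm_num) (by norm_num)
  obtain ⟨c9, h⟩ := quots _ 2 7 h 1 5 3 (by norm_num) (by norm_num) (by norm_num) (by norm_num)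
    (by norm_num) (by norm_num)
  obtain ⟨c10, h⟩ := quots _ 5 3 h 3 4 10 (by norm_num) (by norm_num) (by norm_num) (by norm_num)
    (by norm_num) (by norm_num)
  obtain ⟨c11, h⟩ := quots _ 4 10 h 1 6 1 (by norm_num) (by norm_num) (by norm_num) (by norm_num)
    (by norm_num) (by norm_num)
  obtain ⟨c12, h⟩ := quots _ 6 1 h 12 6 10 (by norm_num) (by norm_num) (by norm_num) (by norm_num)
    (by norm_num) (by norm_num)
  exact ⟨c1, c2, c3, c4, c5, c6, c7, c8, c9, c10, c11, c12, h⟩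

theorem zero_step : c (Real.sqrt 46) 0 = 6 ∧
    quot (Real.sqrt 46) 1 = (((6 : ℤ) : ℝ) + Real.sqrt 46) / ((10 : ℤ) : ℝ) :=
  quots 0 0 1 base0 6 6 10 (by norm_num) (by norm_num) (by norm_num) (by norm_num)
    (by norm_num) (by norm_num)

theorem quot_per (t : ℕ) :
    quot (Real.sqrt 46) (12 * t + 1) = (((6 : ℤ) : ℝ) + Real.sqrt 46) / ((10 : ℤ) : ℝ) := by
  induction t with
  | zero => exact zero_step.2
  | succ t ih =>
    have := (period _ ih).2.2.2.2.2.2.2.2.2.2.2.2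
    have e : 12 * (t + 1) + 1 = 12 * t + 1 + 12 := by ring
    rw [e]; exact this

/-- the partial quotients as a function of the index modulo `12` -/
theorem c_vals (n : ℕ) (hn : 1 ≤ n) :
    c (Real.sqrt 46) n = [12, 1, 3, 1, 1, 2, 6, 2, 1, 1, 3, 1].getD (n % 12) 0 := by
  obtain ⟨t, r, hr, rfl⟩ : ∃ t r, r < 12 ∧ n = 12 * t + 1 + r :=
    ⟨(n - 1) / 12, (n - 1) % 12, Nat.mod_lt _ (by norm_num), by omega⟩
  obtain ⟨c1, c2, c3, c4, c5, c6, c7, c8, c9, c10, c11, c12, -⟩ := period _ (quot_per t)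
  have e : (12 * t + 1 + r) % 12 = (1 + r) % 12 := by omega
  rw [e]
  interval_cases r <;> simp_all

theorem periodLength : IsPeriodLength 46 12 := by
  have e46 : ((46 : ℕ) : ℝ) = 46 := by norm_num
  constructor
  · refine ⟨by norm_num, ?_⟩
    intro n hn
    rw [e46, c_vals (n + 12) (by omega), c_vals n hn, Nat.add_mod_right]
  · rintro l ⟨hl1, hl⟩
    by_contra hlt
    push Not at hlt
    have h := hl 12 (by norm_num)
    rw [e46, c_vals (12 + l) (by omega), c_vals 12 (by norm_num), Nat.add_mod_left,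
      Nat.mod_eq_of_lt hlt] at h
    interval_cases l <;> revert h <;> decide

theorem conv_two : p (Real.sqrt 46) 2 = 7 ∧ q (Real.sqrt 46) 2 = 1 := by
  have h0 := zero_step.1
  have h1 := c_vals 1 (by norm_num)
  norm_num at h1
  constructor <;> simp [p, q, h0, h1]

theorem conv_eight : p (Real.sqrt 46) 8 = 2150 ∧ q (Real.sqrt 46) 8 = 317 := by
  have h0 := zero_step.1
  have h1 := c_vals 1 (by norm_num)
  have h2 := c_vals 2 (by norm_num)
  have h3 := c_vals 3 (by norm_num)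
  have h4 := c_vals 4 (by norm_num)
  have h5 := c_vals 5 (by norm_num)
  have h6 := c_vals 6 (by norm_num)
  have h7 := c_vals 7 (by norm_num)
  norm_num at h1 h2 h3 h4 h5 h6 h7
  constructor <;> simp [p, q, h0, h1, h2, h3, h4, h5, h6, h7]

/-! ### The orbit of `∞` -/

/-- the property of the elements of the orbit of `∞` -/
def Good (x : OnePoint ℚ) : Prop :=
  ∀ y : ℚ, x = (y : OnePoint ℚ) → ∃ r : ℚ, y ^ 2 - 46 = r ^ 2 ∨ y ^ 2 - 46 = 2 * r ^ 2

theorem hd : ((156 / 23 : ℚ)) ^ 2 ≠ 46 := by norm_num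

theorem good_mob (d : ℚ) (hd : d = 156 / 23 ∨ d = -(156 / 23)) (x : OnePoint ℚ) (hx : Good x) :
    Good (mob 46 d x) := by
  have hd2 : d ^ 2 - 46 = 2 * (1 / 23) ^ 2 := by rcases hd with rfl | rfl <;> norm_num
  induction x using OnePoint.rec with
  | infty =>
    intro y hy
    rw [mob_infty] at hy
    have : d = y := OnePoint.coe_injective hy
    subst this
    exact ⟨1 / 23, Or.inr hd2⟩
  | coe x =>
    intro y hy
    rw [mob_coe] at hy
    split_ifs at hy with h1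
    · exact absurd hy (OnePoint.infty_ne_coe _)
    · have : (d * x + 46) / (x + d) = y := OnePoint.coe_injective hy
      subst this
      obtain ⟨r, hr⟩ := hx x rfl
      have e : ((d * x + 46) / (x + d)) ^ 2 - 46 = (d ^ 2 - 46) * (x ^ 2 - 46) / (x + d) ^ 2 := by
        field_simp; ring
      rw [e, hd2]
      rcases hr with hr | hr
      · refine ⟨r / (23 * (x + d)), Or.inr ?_⟩
        rw [hr]; field_simp
      · refine ⟨2 * r / (23 * (x + d)), Or.inl ?_⟩
        rw [hr]; field_simp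

theorem good_orbit (n : ℤ) : Good (((f 46 (156 / 23) hd) ^ n) ∞) := by
  have h0 : Good (∞ : OnePoint ℚ) := fun y hy => absurd hy (OnePoint.infty_ne_coe _)
  have hpos : ∀ m : ℕ, Good (((f 46 (156 / 23) hd) ^ m) ∞) := by
    intro m
    induction m with
    | zero => simpa using h0
    | succ m ih =>
      rw [pow_succ', Equiv.Perm.mul_apply]
      exact good_mob _ (Or.inl rfl) _ ih
  have hneg : ∀ m : ℕ, Good ((((f 46 (156 / 23) hd)⁻¹) ^ m) ∞) := by
    intro m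
    induction m with
    | zero => simpa using h0
    | succ m ih =>
      rw [pow_succ', Equiv.Perm.mul_apply]
      exact good_mob _ (Or.inr rfl) _ ih
  rcases n with m | m
  · exact hpos m
  · have : ((f 46 (156 / 23) hd) ^ (Int.negSucc m)) = ((f 46 (156 / 23) hd)⁻¹) ^ (m + 1) := by
      rw [zpow_negSucc, inv_pow]
    rw [this]
    exact hneg (m + 1)

theorem three_ne (r : ℚ) : ¬ ((7 : ℚ) ^ 2 - 46 = r ^ 2 ∨ (7 : ℚ) ^ 2 - 46 = 2 * r ^ 2) := by
  have h3 : ¬ IsSquare (3 : ℚ) := by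
    rw [show (3 : ℚ) = ((3 : ℕ) : ℚ) by norm_num, Rat.isSquare_natCast_iff]
    rintro ⟨a, ha⟩
    have : a ≤ 1 := by nlinarith
    interval_cases a <;> omega
  have h6 : ¬ IsSquare (6 : ℚ) := by
    rw [show (6 : ℚ) = ((6 : ℕ) : ℚ) by norm_num, Rat.isSquare_natCast_iff]
    rintro ⟨a, ha⟩
    have : a ≤ 2 := by nlinarith
    interval_cases a <;> omega
  rintro (h | h)
  · exact h3 ⟨r, by linarith⟩
  · exact h6 ⟨2 * r, by linarith⟩

/-- **Main result**: there are `k`, `d` as in the problem with `R` an integer, and a rational number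
`x₀` which is not of the form `f ^ n (∞)`, `n ∈ ℤ`, such that the orbit `{f ^ n (x₀) : n ≥ 0}`
contains two convergents `p_i/q_i`, `p_j/q_j` of `√k` with `i` and `j` incongruent modulo the
period length `L`. -/
theorem result : ∃ (k : ℕ) (d : ℚ) (h : d ^ 2 ≠ (k : ℚ)) (L : ℕ), 0 < k ∧ ¬ IsSquare k ∧ 0 < d ∧
    (∃ R : ℤ, (R : ℚ) = 4 * d ^ 2 / (k - d ^ 2)) ∧ IsPeriodLength k L ∧
    ∃ x₀ : ℚ, (∀ n : ℤ, ((f k d h) ^ n) ∞ ≠ (x₀ : OnePoint ℚ)) ∧
      ∃ i j m n : ℕ, 1 ≤ i ∧ 1 ≤ j ∧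
        ((f k d h) ^ m) (x₀ : OnePoint ℚ) =
          (((p (Real.sqrt k) i : ℚ) / (q (Real.sqrt k) i : ℚ) : ℚ) : OnePoint ℚ) ∧
        ((f k d h) ^ n) (x₀ : OnePoint ℚ) =
          (((p (Real.sqrt k) j : ℚ) / (q (Real.sqrt k) j : ℚ) : ℚ) : OnePoint ℚ) ∧
        ¬ i ≡ j [MOD L] := by
  refine ⟨46, 156 / 23, by norm_num, 12, by norm_num, ?_, by norm_num, ⟨-48672, by norm_num⟩,
    periodLength, 7, ?_, 2, 8, 0, 1, by norm_num, by norm_num, ?_, ?_, by decide⟩
  · rintro ⟨a, ha⟩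
    have : a ≤ 6 := by nlinarith
    interval_cases a <;> omega
  · intro n hn
    have hg := good_orbit n
    have e : (f ((46 : ℕ) : ℚ) (156 / 23) (by norm_num)) = f 46 (156 / 23) hd := by
      congr 1
    rw [e] at hn
    obtain ⟨r, hr⟩ := hg 7 hn
    exact three_ne r hr
  · have e46 : ((46 : ℕ) : ℝ) = 46 := by norm_num
    rw [e46, conv_two.1, conv_two.2]
    norm_num
  · have e46 : ((46 : ℕ) : ℝ) = 46 := by norm_num
    rw [e46, conv_eight.1, conv_eight.2, pow_one]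
    change mob ((46 : ℕ) : ℚ) (156 / 23) ((7 : ℚ) : OnePoint ℚ) = _
    rw [mob_coe, if_neg (by norm_num)]
    congr 1
    norm_num

end Pool.Agent.Results.MP_f17d28_nt.TwoPerPeriod
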